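import Mathlib
import Pool.Agent.H28.KyFan

namespace Pool.Agent.Results.MP_03f9bf_an.KyFanFails

open Pool.Agent.H28.KyFan

theorem result : ∃ (n : ℕ) (A B : Matrix (Fin n) (Fin n) ℂ) (k : ℕ),
    A.IsHermitian ∧ B.IsHermitian ∧ 1 ≤ k ∧ k ≤ n ∧
    2 * sv A 0 * kyFan k (mR B) < kyFan k (mL A B) := by
  refine ⟨15, cx A0, cx B0, 15, hA, hB, by norm_num, le_rfl, ?_⟩
  rw [sv_unit _ hAA 0 (by norm_num), kyR]
  linarith [kyL]

end Pool.Agent.Results.MP_03f9bf_an.KyFanFails
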